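import Pool.Agent.GBS.StmtsB
import Pool.Agent.Helper26_MVS.BR2

/-! GBS, row BFO: from a parametrization to the cylinder (helper38). -/

noncomputable section

open scoped ContDiff Topology RealInnerProductSpace
set_option maxSynthPendingDepth 3
open Set MeasureTheory

namespace Pool.Agent.GBS.H38

open Pool.Agent.RF Pool.Agent.MVS Pool.Agent.SecondKind Pool.Agent.MinVolSphere

/-- the identity as a numbering of the coordinates -/
abbrev s5 : Fin 5 ≃ Fin (4 + 1) := Pool.Agent.MVS.H38.sg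

theorem bfo : BfoStmt := by
  intro g G hG U ψ hψ y hy
  obtain ⟨hC, hGg⟩ := hG
  obtain ⟨hM, hS⟩ := H5.slice_star chrStatement (ι := Fin 5) (κ := Fin 4) (by simp)
    hC (IsParam.open' hψ) (IsParam.smooth' s5 hψ) (IsParam.norm' s5 hψ) (IsParam.inj' s5 hψ)
  have hcomp : ∀ z ∈ U, comp g ψ z = mat (pullb G (psE s5 ψ)) z := by
    intro z hz
    rw [← comp_toForm]
    funext i j
    unfold comp toForm
    exact (hGg _ _ _ (Pool.Agent.MVS.H26.tangent_of (G := G) hψ hz _)
      (Pool.Agent.MVS.H26.tangent_of (G := G) hψ hz _)).symm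
  have hxm : (eqE 4).symm y ∈ eqE 4 ⁻¹' U := mem_pre hy
  have hyx' : eqE 4 ((eqE 4).symm y) = y := ContinuousLinearEquiv.apply_symm_apply _ _
  have hpx : psE s5 ψ ((eqE 4).symm y) = vc (ψ y) := by
    unfold psE
    rw [hyx']
    rfl
  have hD : ∀ a : Fin 4 → ℝ, fderiv ℝ (psE s5 ψ) ((eqE 4).symm y) (vec a) =
      vc (fderiv ℝ ψ y a) := by
    intro a
    rw [fderiv_psE, hyx']
    unfold vec
    rw [ContinuousLinearEquiv.apply_symm_apply]
    rfl
  have hmet : ∀ a b : Fin 4 → ℝ, ∑ p, ∑ q, a p * b q * comp g ψ y p q =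
      G (vc (ψ y)) (vc (fderiv ℝ ψ y a)) (vc (fderiv ℝ ψ y b)) := by
    intro u v
    have h1 := bil_vec (b := pullb G (psE s5 ψ)) ((eqE 4).symm y) u v
    rw [hyx', ← hcomp y hy, pullb_apply, hD, hD, hpx] at h1
    exact h1.symm
  refine ⟨fun a b c d => ?_, hmet, fun e he => ⟨fun a => ?_, fun a b => ?_⟩⟩
  · rw [Pool.Agent.MVS.H26.riemV_congr hψ.isOpen hcomp hy]
    conv_lhs => rw [← hyx']
    rw [riemV_mat hM hxm, pullb_apply]
    have hn := H5.nat chrStatement (Fin 5) (Fin 4) _ G (psE s5 ψ) _ (Om (Fin 5)) hM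
      hC.metric (IsParam.smooth' s5 hψ) (IsParam.maps' s5 hψ) hS _ hxm
      (vec a) (vec b) (vec c)
    rw [hn, hD, hD, hD, hD, hpx]
  · have h := H5.psi_orth (IsParam.open' hψ) (IsParam.smooth' s5 hψ) (IsParam.norm' s5 hψ) hxm
      (vec (e a))
    rw [hD, hpx] at h
    exact h
  · rw [← hmet]
    exact he a b

end Pool.Agent.GBS.H38
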